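import Pool.Agent.W74.SM.Exp1

/-!
# Project SM: expansion of the `k`-th moment into symbols, second part
-/

set_option autoImplicit false

namespace Pool.Agent.W74.SM

open Finset Pool.Agent.W262.RK Pool.Agent.W108.RK Pool.Agent.W762.RK2 Pool.Agent.W262.SH

section big

variable {J : Type} [Fintype J] [DecidableEq J] {z y k : ℕ}

/-- first bits -/
def c1 (r : Fin k) (x : Option (J × (Fin k → Bool × Bool))) : Bool :=
  x.elim false fun a => (a.2 r).1

/-- second bits -/
def c2 (r : Fin k) (x : Option (J × (Fin k → Bool × Bool))) : Bool :=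
  x.elim false fun a => (a.2 r).2

/-- first divisors -/
def E1 (r : Fin k) (ξ : Pr z y → Option (J × (Fin k → Bool × Bool))) : ℕ := nb fun p => c1 r (ξ p)

/-- second divisors -/
def E2 (r : Fin k) (ξ : Pr z y → Option (J × (Fin k → Bool × Bool))) : ℕ := nb fun p => c2 r (ξ p)

/-- the tuple -/
def TT (ξ : Pr z y → Option (J × (Fin k → Bool × Bool))) : J → ℕ := Dl fun p => (ξ p).map Prod.fst

lemma E1_dvd (r : Fin k) (ξ : Pr z y → Option (J × (Fin k → Bool × Bool))) :
    E1 r ξ ∣ ∏ j, TT ξ j := by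
  unfold TT E1
  rw [prod_Dl]
  refine nb_dvd fun p hp => ?_
  cases h : ξ p with
  | none => rw [h] at hp; exact absurd hp (by simp [c1])
  | some a => rfl

lemma E2_dvd (r : Fin k) (ξ : Pr z y → Option (J × (Fin k → Bool × Bool))) :
    E2 r ξ ∣ ∏ j, TT ξ j := by
  unfold TT E2
  rw [prod_Dl]
  refine nb_dvd fun p hp => ?_
  cases h : ξ p with
  | none => rw [h] at hp; exact absurd hp (by simp [c2])
  | some a => rfl

lemma prod_TT_ne (ξ : Pr z y → Option (J × (Fin k → Bool × Bool))) : ∏ j, TT ξ j ≠ 0 := by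
  unfold TT
  rw [prod_Dl]
  exact nb_ne_zero _

lemma sum_bigk (F : (J → ℕ) → (Fin k → ℕ × ℕ) → ℝ) :
    ∑ s ∈ Tup J z y, ∑ d ∈ Fintype.piFinset
      (fun _ : Fin k => (∏ j, s j).divisors ×ˢ (∏ j, s j).divisors), F s d =
      ∑ ξ : Pr z y → Option (J × (Fin k → Bool × Bool)), F (TT ξ) (fun r => (E1 r ξ, E2 r ξ)) := by
  rw [Finset.sum_sigma']
  symm
  refine Finset.sum_bij (fun ξ _ => ⟨TT ξ, fun r => (E1 r ξ, E2 r ξ)⟩) ?_ ?_ ?_ (fun _ _ => rfl)
  · intro ξ _
    rw [Finset.mem_sigma, Fintype.mem_piFinset]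
    refine ⟨Dl_mem _, fun r => ?_⟩
    rw [Finset.mem_product]
    exact ⟨Nat.mem_divisors.2 ⟨E1_dvd r ξ, prod_TT_ne ξ⟩,
      Nat.mem_divisors.2 ⟨E2_dvd r ξ, prod_TT_ne ξ⟩⟩
  · intro ξ _ ξ' _ h
    have h1 : TT ξ = TT ξ' := congrArg Sigma.fst h
    have h2 : (fun r : Fin k => (E1 r ξ, E2 r ξ)) = fun r => (E1 r ξ', E2 r ξ') :=
      congrArg Sigma.snd h
    have h3 : ∀ r, E1 r ξ = E1 r ξ' := fun r => congrArg Prod.fst (congrFun h2 r)
    have h4 : ∀ r, E2 r ξ = E2 r ξ' := fun r => congrArg Prod.snd (congrFun h2 r)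
    funext p
    have e1 : (ξ p).map Prod.fst = (ξ' p).map Prod.fst := congrFun (Dl_inj h1) p
    have e2 : ∀ r, c1 r (ξ p) = c1 r (ξ' p) := fun r => congrFun (nb_inj (h3 r)) p
    have e3 : ∀ r, c2 r (ξ p) = c2 r (ξ' p) := fun r => congrFun (nb_inj (h4 r)) p
    cases hx : ξ p with
    | none =>
      cases hx' : ξ' p with
      | none => rfl
      | some a' => rw [hx, hx'] at e1; exact absurd e1 (by simp)
    | some a =>
      cases hx' : ξ' p with
      | none => rw [hx, hx'] at e1; exact absurd e1 (by simp)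
      | some a' =>
        rw [hx, hx'] at e1 e2 e3
        obtain ⟨j, v⟩ := a
        obtain ⟨j', v'⟩ := a'
        have e4 : j = j' := by simpa using e1
        have e5 : v = v' := by
          funext r
          exact Prod.ext (e2 r) (e3 r)
        rw [e4, e5]
  · rintro ⟨s, d⟩ hs
    rw [Finset.mem_sigma, Fintype.mem_piFinset] at hs
    obtain ⟨hs, hd⟩ := hs
    simp only at hs hd
    have hd1 : ∀ r, (d r).1 ∣ ∏ j, s j := fun r =>
      (Nat.mem_divisors.1 (Finset.mem_product.1 (hd r)).1).1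
    have hd2 : ∀ r, (d r).2 ∣ ∏ j, s j := fun r =>
      (Nat.mem_divisors.1 (Finset.mem_product.1 (hd r)).2).1
    have hPP : ∏ j, s j ∣ PP z y := by
      rw [← Dl_lab hs, prod_Dl]
      exact nb_dvd_PP _
    have hn : ∀ p : Pr z y, lab s p = none → ¬ (p : ℕ) ∣ ∏ j, s j := by
      intro p hp h
      rw [← Dl_lab hs, prod_Dl, dvd_nb, hp] at h
      exact absurd h (by simp)
    refine ⟨fun p => (lab s p).map fun j => (j, fun r =>
      (decide ((p : ℕ) ∣ (d r).1), decide ((p : ℕ) ∣ (d r).2))), Finset.mem_univ _, ?_⟩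
    have e1 : TT (fun p : Pr z y => (lab s p).map fun j => (j, fun r : Fin k =>
      (decide ((p : ℕ) ∣ (d r).1), decide ((p : ℕ) ∣ (d r).2)))) = s := by
      unfold TT
      conv_rhs => rw [← Dl_lab hs]
      congr 1
      funext p
      show ((lab s p).map fun j => (j, fun r : Fin k =>
        (decide ((p : ℕ) ∣ (d r).1), decide ((p : ℕ) ∣ (d r).2)))).map Prod.fst = _
      cases lab s p <;> rfl
    have e2 : ∀ r : Fin k, E1 r (fun p : Pr z y => (lab s p).map fun j => (j, fun r : Fin k =>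
      (decide ((p : ℕ) ∣ (d r).1), decide ((p : ℕ) ∣ (d r).2)))) = (d r).1 := by
      intro r
      unfold E1
      conv_rhs => rw [← nb_eq ((hd1 r).trans hPP)]
      congr 1
      funext p
      show c1 r ((lab s p).map fun j => (j, fun r : Fin k =>
        (decide ((p : ℕ) ∣ (d r).1), decide ((p : ℕ) ∣ (d r).2)))) = _
      cases hp : lab s p with
      | none =>
        have : ¬ (p : ℕ) ∣ (d r).1 := fun h => hn p hp (h.trans (hd1 r))
        simp [c1, this]
      | some j => rfl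
    have e3 : ∀ r : Fin k, E2 r (fun p : Pr z y => (lab s p).map fun j => (j, fun r : Fin k =>
      (decide ((p : ℕ) ∣ (d r).1), decide ((p : ℕ) ∣ (d r).2)))) = (d r).2 := by
      intro r
      unfold E2
      conv_rhs => rw [← nb_eq ((hd2 r).trans hPP)]
      congr 1
      funext p
      show c2 r ((lab s p).map fun j => (j, fun r : Fin k =>
        (decide ((p : ℕ) ∣ (d r).1), decide ((p : ℕ) ∣ (d r).2)))) = _
      cases hp : lab s p with
      | none =>
        have : ¬ (p : ℕ) ∣ (d r).2 := fun h => hn p hp (h.trans (hd2 r))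
        simp [c2, this]
      | some j => rfl
    have e4 : (fun r : Fin k => (E1 r (fun p : Pr z y => (lab s p).map fun j => (j, fun r : Fin k =>
      (decide ((p : ℕ) ∣ (d r).1), decide ((p : ℕ) ∣ (d r).2)))),
      E2 r (fun p : Pr z y => (lab s p).map fun j => (j, fun r : Fin k =>
      (decide ((p : ℕ) ∣ (d r).1), decide ((p : ℕ) ∣ (d r).2)))))) = d := by
      funext r
      rw [e2 r, e3 r]
    rw [e1, e4]

end big

section average

variable {J : Type} [Fintype J] [DecidableEq J] {z y : ℕ}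

omit [DecidableEq J] in
lemma P3_const (s : J → ℕ) :
    P3 (fun _ : J => (3 : Fin 4)) s = (∏ j, s j).primeFactors := by
  unfold P3
  congr 2
  exact Finset.filter_true_of_mem fun _ _ => rfl

lemma NBK_eq (κ : J → Fin 3 → ℤ) (k : ℕ) (s : J → ℕ) :
    NBK κ k s = ∑ d ∈ Fintype.piFinset
      (fun _ : Fin k => (∏ j, s j).divisors ×ˢ (∏ j, s j).divisors),
      ∏ p ∈ (∏ j, s j).primeFactors, ((∏ r, Il (fun _ => 3) κ s (d r) true p) +
        ∏ r, Il (fun _ => 3) κ s (d r) false p) / 2 := by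
  classical
  have h1 : ∀ E : Finset ℕ, (NL (∏ j, s j) (LLs (fun _ : J => (3 : Fin 4)) κ s E) : ℝ) =
      ∑ d ∈ (∏ j, s j).divisors ×ˢ (∏ j, s j).divisors,
        ∏ p ∈ (∏ j, s j).primeFactors, Il (fun _ => 3) κ s d (decide (p ∈ E)) p := by
    intro E
    unfold NL
    rw [Finset.card_filter]
    push_cast
    refine Finset.sum_congr rfl fun d _ => ?_
    unfold Il
    rw [prod_ind]
    unfold ind LLs
    congr
  have h2 : ∀ E : Finset ℕ, (NL (∏ j, s j) (LLs (fun _ : J => (3 : Fin 4)) κ s E) : ℝ) ^ k =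
      ∑ d ∈ Fintype.piFinset (fun _ : Fin k => (∏ j, s j).divisors ×ˢ (∏ j, s j).divisors),
        ∏ p ∈ (∏ j, s j).primeFactors, ∏ r, Il (fun _ => 3) κ s (d r) (decide (p ∈ E)) p := by
    intro E
    rw [h1 E]
    have h3 : (∑ d ∈ (∏ j, s j).divisors ×ˢ (∏ j, s j).divisors,
        ∏ p ∈ (∏ j, s j).primeFactors, Il (fun _ => 3) κ s d (decide (p ∈ E)) p) ^ k =
        ∏ _r : Fin k, ∑ d ∈ (∏ j, s j).divisors ×ˢ (∏ j, s j).divisors,
        ∏ p ∈ (∏ j, s j).primeFactors, Il (fun _ => 3) κ s d (decide (p ∈ E)) p := by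
      rw [Finset.prod_const, Finset.card_univ, Fintype.card_fin]
    rw [h3, Finset.prod_univ_sum]
    refine Finset.sum_congr rfl fun d _ => ?_
    exact Finset.prod_comm
  unfold NBK
  rw [Finset.sum_congr rfl fun E _ => h2 E, Finset.sum_comm, Finset.mul_sum]
  refine Finset.sum_congr rfl fun d _ => ?_
  refine avg (P3 (fun _ : J => (3 : Fin 4)) s) (∏ j, s j).primeFactors (P3_const s).le
    (fun neg p => ∏ r, Il (fun _ => 3) κ s (d r) neg p) ?_
  intro p hp hpA
  rw [P3_const] at hpA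
  exact absurd hp hpA

end average

section final

variable {J : Type} [Fintype J] [DecidableEq J] {z y k : ℕ}

/-- the local term -/
noncomputable def Tk (κ : J → Fin 3 → ℤ) (c : ℕ)
    (ξ : Pr z y → Option (J × (Fin k → Bool × Bool))) (p : Pr z y) : ℝ :=
  (ξ p).elim 1 fun a => 1 / ((p : ℝ) - c) *
    (((∏ r, ind (LL 3 (κ a.1) true p (a.2 r).1 (a.2 r).2 (sgn p (E1 r ξ)) (sgn p (E2 r ξ)))) +
      ∏ r, ind (LL 3 (κ a.1) false p (a.2 r).1 (a.2 r).2 (sgn p (E1 r ξ)) (sgn p (E2 r ξ)))) / 2)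

lemma lhs_eqk (κ : J → Fin 3 → ℤ) (c k : ℕ) :
    ∑ s ∈ Tup J z y, NBK κ k s * ∏ j, gw 1 c (s j) =
      ∑ ξ : Pr z y → Option (J × (Fin k → Bool × Bool)), ∏ p, Tk κ c ξ p := by
  have h1 : ∀ s ∈ Tup J z y, NBK κ k s * ∏ j, gw 1 c (s j) =
      ∑ d ∈ Fintype.piFinset
        (fun _ : Fin k => (∏ j, s j).divisors ×ˢ (∏ j, s j).divisors),
        (∏ p ∈ (∏ j, s j).primeFactors, ((∏ r, Il (fun _ => 3) κ s (d r) true p) +
        ∏ r, Il (fun _ => 3) κ s (d r) false p) / 2) *
          ∏ j, gw 1 c (s j) := by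
    intro s hs
    rw [NBK_eq κ k s, Finset.sum_mul]
  rw [Finset.sum_congr rfl h1, sum_bigk fun s d =>
    (∏ p ∈ (∏ j, s j).primeFactors, ((∏ r, Il (fun _ => 3) κ s (d r) true p) +
        ∏ r, Il (fun _ => 3) κ s (d r) false p) / 2) *
          ∏ j, gw 1 c (s j)]
  refine Finset.sum_congr rfl fun ξ _ => ?_
  have h2 : ∏ j, gw 1 c (TT ξ j) = ∏ p : Pr z y, ((ξ p).map Prod.fst).elim 1
      fun _ => 1 / ((p : ℝ) - c) := prod_gw (fun _ => 1) c _
  have h3 : ∏ j, TT ξ j = nb fun p => ((ξ p).map Prod.fst).isSome := prod_Dl _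
  rw [h2, h3, prod_pf _ fun p => ((∏ r, Il (fun _ => 3) κ (TT ξ) (E1 r ξ, E2 r ξ) true p) +
        ∏ r, Il (fun _ => 3) κ (TT ξ) (E1 r ξ, E2 r ξ) false p) / 2, ← Finset.prod_mul_distrib]
  refine Finset.prod_congr rfl fun p _ => ?_
  unfold Tk
  cases hx : ξ p with
  | none => simp
  | some a =>
    have h4 : ∀ neg r, Il (fun _ => 3) κ (TT ξ) (E1 r ξ, E2 r ξ) neg p =
        ind (LL 3 (κ a.1) neg p (a.2 r).1 (a.2 r).2 (sgn p (E1 r ξ)) (sgn p (E2 r ξ))) := by
      intro neg r
      unfold Il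
      have e1 : dv p (E1 r ξ : ℤ) = (a.2 r).1 := by
        have : c1 r (ξ p) = (a.2 r).1 := by rw [hx]; rfl
        rw [← this]
        unfold dv
        rw [Bool.eq_iff_iff, decide_eq_true_iff, Int.natCast_dvd_natCast]
        exact dvd_nb _ p
      have e2 : dv p (E2 r ξ : ℤ) = (a.2 r).2 := by
        have : c2 r (ξ p) = (a.2 r).2 := by rw [hx]; rfl
        rw [← this]
        unfold dv
        rw [Bool.eq_iff_iff, decide_eq_true_iff, Int.natCast_dvd_natCast]
        exact dvd_nb _ p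
      have e3 : ∀ j, (p : ℕ) ∣ TT ξ j ↔ j = a.1 := by
        intro j
        unfold TT Dl
        rw [dvd_nb, decide_eq_true_iff]
        show (ξ p).map Prod.fst = some j ↔ j = a.1
        rw [hx]
        simp [eq_comm]
      congr 1
      simp only [e1, e2, e3, forall_eq]
    simp only [h4]
    simp only [Option.map_some, Option.isSome_some, if_true, Option.elim]
    ring

omit [DecidableEq J] in
lemma sum_IK (F : J × (Fin k → Bool × Bool) × (Fin k → Bool × Bool) → ℝ) :
    ∑ i : IK J k, F i.1 = ∑ r, if pr r.2.2 r.2.1 = 0 then F r else 0 := by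
  classical
  rw [← Finset.sum_filter]
  have h : ∀ x : J × (Fin k → Bool × Bool) × (Fin k → Bool × Bool),
    x ∈ (univ.filter fun r : J × (Fin k → Bool × Bool) × (Fin k → Bool × Bool) =>
      pr r.2.2 r.2.1 = 0) ↔ pr x.2.2 x.2.1 = 0 := fun x => by simp
  exact (Finset.sum_subtype _ h F).symm

/-- forget the character -/
def fk (x : Option (IK J k)) : Option (J × (Fin k → Bool × Bool)) :=
  x.map fun i => (i.1.1, i.1.2.1)

/-- the local factor -/
noncomputable def Gk (κ : J → Fin 3 → ℤ) (c : ℕ)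
    (ξ : Pr z y → Option (J × (Fin k → Bool × Bool))) (p : Pr z y) (x : Option (IK J k)) : ℝ :=
  x.elim 1 fun i => 1 / ((p : ℝ) - c) * ((1 / 4 : ℝ) ^ k *
    ∏ r, (Jr (cK (κ i.1.1) (i.1.2.1 r) (i.1.2.2 r)) p *
      ((if (i.1.2.2 r).1 = true then sg (sgn p (E1 r ξ)) else 1) *
        (if (i.1.2.2 r).2 = true then sg (sgn p (E2 r ξ)) else 1))))

lemma sum_Gk (κ : J → Fin 3 → ℤ) (c : ℕ)
    (ξ : Pr z y → Option (J × (Fin k → Bool × Bool))) (p : Pr z y)
    (hk : ∀ j i, ¬ ((p : ℕ) : ℤ) ∣ κ j i) :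
    ∑ x ∈ univ.filter (fun x : Option (IK J k) => fk x = ξ p), Gk κ c ξ p x = Tk κ c ξ p := by
  rw [Finset.sum_filter, Fintype.sum_option]
  unfold Tk
  cases hx : ξ p with
  | none => simp [fk, Gk]
  | some a =>
    obtain ⟨j, v⟩ := a
    have h0 : (if fk (none : Option (IK J k)) = some (j, v) then Gk κ c ξ p none else 0) = 0 := by
      rw [if_neg]
      simp [fk]
    rw [h0, zero_add]
    set F : J × (Fin k → Bool × Bool) × (Fin k → Bool × Bool) → ℝ :=
        fun i : J × (Fin k → Bool × Bool) × (Fin k → Bool × Bool) =>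
          if i.1 = j ∧ i.2.1 = v then 1 / ((p : ℝ) - c) * ((1 / 4 : ℝ) ^ k *
    ∏ r, (Jr (cK (κ i.1) (i.2.1 r) (i.2.2 r)) p *
      ((if (i.2.2 r).1 = true then sg (sgn p (E1 r ξ)) else 1) *
        (if (i.2.2 r).2 = true then sg (sgn p (E2 r ξ)) else 1)))) else 0 with hF
    have h1 : ∀ i : IK J k, (if fk (some i) = some (j, v) then Gk κ c ξ p (some i) else 0) =
        F i.1 := by
      intro i
      refine if_congr ?_ rfl rfl
      simp only [fk, Option.map_some, Option.some.injEq, Prod.mk.injEq]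
    refine (Finset.sum_congr rfl fun i _ => h1 i).trans ((sum_IK F).trans ?_)
    rw [Fintype.sum_prod_type, Finset.sum_eq_single j]
    · rw [Fintype.sum_prod_type, Finset.sum_eq_single v]
      · show _ = 1 / ((p : ℝ) - c) * _
        rw [loc_id k (κ j) (Pr_prime p) (hk j) v, Finset.mul_sum]
        refine Finset.sum_congr rfl fun x _ => ?_
        simp only [hF, and_self, if_true, mul_ite, mul_zero]
      · intro v' _ hv'
        refine Finset.sum_eq_zero fun x _ => ?_
        simp [hF, hv']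
      · intro h
        exact absurd (Finset.mem_univ _) h
    · intro j' _ hj'
      refine Finset.sum_eq_zero fun x _ => ?_
      simp [hF, hj']
    · intro h
      exact absurd (Finset.mem_univ _) h

/-- the bits of a label -/
def vb (x : Option (J × (Fin k → Bool × Bool))) : Fin k → Bool × Bool :=
  fun r => (c1 r x, c2 r x)

lemma pr_zero (x : Fin k → Bool × Bool) : pr x (fun _ => (false, false)) = 0 := by
  unfold pr
  simp

lemma bits_one (q p : Pr z y) (hqp : q ≠ p) (x v : Bool × Bool) :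
    (if px x v = 1 then Jr (q : ℕ) p else 1) =
      (if x.1 = true then (if q ≠ p ∧ v.1 = true then Jr (q : ℕ) p else 1) else 1) *
      (if x.2 = true then (if q ≠ p ∧ v.2 = true then Jr (q : ℕ) p else 1) else 1) := by
  have hJ : Jr (q : ℕ) p * Jr (q : ℕ) p = 1 := by
    have hnd : ¬ ((p : ℕ) : ℤ) ∣ ((q : ℕ) : ℤ) := by
      rw [Int.natCast_dvd_natCast]
      intro hd
      exact hqp (Subtype.ext ((Nat.prime_dvd_prime_iff_eq (Pr_prime p) (Pr_prime q)).1 hd).symm)
    rw [← sg_sg0 (Pr_prime p) hnd]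
    unfold sg
    split_ifs <;> norm_num
  have e0 : ¬ ((0 : ZMod 2) = 1) := by decide
  have e2 : ¬ ((1 + 1 : ZMod 2) = 1) := by decide
  obtain ⟨v1, v2⟩ := v
  obtain ⟨x1, x2⟩ := x
  cases v1 <;> cases v2 <;> cases x1 <;> cases x2 <;> simp [px, hqp, hJ, e0, e2]

lemma bits_all (q p : Pr z y) (x v : Fin k → Bool × Bool) (h : q = p → pr x v = 0) :
    (if pr x v = 1 then Jr (q : ℕ) p else 1) =
      ∏ r, ((if (x r).1 = true then (if q ≠ p ∧ (v r).1 = true then Jr (q : ℕ) p else 1) else 1) *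
      (if (x r).2 = true then (if q ≠ p ∧ (v r).2 = true then Jr (q : ℕ) p else 1) else 1)) := by
  by_cases hqp : q = p
  · rw [h hqp]
    simp [hqp]
  · have hJ : Jr (q : ℕ) p * Jr (q : ℕ) p = 1 := by
      have hnd : ¬ ((p : ℕ) : ℤ) ∣ ((q : ℕ) : ℤ) := by
        rw [Int.natCast_dvd_natCast]
        intro hd
        exact hqp (Subtype.ext ((Nat.prime_dvd_prime_iff_eq (Pr_prime p) (Pr_prime q)).1 hd).symm)
      rw [← sg_sg0 (Pr_prime p) hnd]
      unfold sg
      split_ifs <;> norm_num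
    rw [pr_eq, ez_sum _ hJ]
    exact Finset.prod_congr rfl fun r _ => bits_one q p hqp (x r) (v r)

lemma rhs_termk (κ : J → Fin 3 → ℤ) (c : ℕ)
    (ξ : Pr z y → Option (J × (Fin k → Bool × Bool))) (l : Pr z y → Option (IK J k))
    (h : ∀ p, fk (l p) = ξ p) :
    (∏ i, gw ((1 / 4) ^ k) c (Dl l i)) * Pool.Agent.W262.RK.Sym LK (κK κ) (Dl l) =
      ∏ p, Gk κ c ξ p (l p) := by
  rw [prod_gw (fun _ => (1 / 4 : ℝ) ^ k), Sym_Dl, ← Finset.prod_mul_distrib,
    ← Finset.prod_mul_distrib]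
  refine Finset.prod_congr rfl fun p _ => ?_
  cases hl : l p with
  | none =>
    have h0 : ∀ q, lk LK (l q) none = false := by
      intro q
      cases l q <;> rfl
    simp [h0, Gk]
  | some i =>
    have h1 : ∀ q, lk LK (l q) (some i) = decide (pr i.1.2.2 (vb (ξ q)) = 1) := by
      intro q
      rw [← h q]
      cases hq : l q with
      | none =>
        have e : vb (fk (none : Option (IK J k))) = fun _ => (false, false) := rfl
        rw [e, pr_zero]
        simp [lk]
      | some i' => rfl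
    have h3 : ∀ a : Bool, ∀ b : Pr z y → Bool, (if a = true then sg (sgn p (nb b : ℤ)) else 1) =
          ∏ q : Pr z y, if a = true then (if q ≠ p ∧ b q = true then Jr (q : ℕ) p else 1)
            else 1 := by
      intro a b
      cases a
      · simp
      · simp only [if_true]
        exact sgn_nb b p
    have h2 : ∏ q : Pr z y, (if lk LK (l q) (some i) = true then Jr (q : ℕ) p else 1) =
        ∏ r, ((if (i.1.2.2 r).1 = true then sg (sgn p (E1 r ξ)) else 1) *
      (if (i.1.2.2 r).2 = true then sg (sgn p (E2 r ξ)) else 1)) := by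
      unfold E1 E2
      have h4 : ∀ r, ((if (i.1.2.2 r).1 = true then
          sg (sgn p ((nb fun p => c1 r (ξ p) : ℕ) : ℤ)) else 1) *
          (if (i.1.2.2 r).2 = true then sg (sgn p ((nb fun p => c2 r (ξ p) : ℕ) : ℤ)) else 1)) =
          ∏ q : Pr z y, ((if (i.1.2.2 r).1 = true then
            (if q ≠ p ∧ (vb (ξ q) r).1 = true then Jr (q : ℕ) p else 1) else 1) *
            (if (i.1.2.2 r).2 = true then
            (if q ≠ p ∧ (vb (ξ q) r).2 = true then Jr (q : ℕ) p else 1) else 1)) := by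
        intro r
        rw [h3, h3, ← Finset.prod_mul_distrib]
        rfl
      rw [Finset.prod_congr rfl fun r _ => h4 r, Finset.prod_comm]
      refine Finset.prod_congr rfl fun q _ => ?_
      rw [h1, ← bits_all q p i.1.2.2 (vb (ξ q))]
      · simp only [decide_eq_true_eq]
      · intro hqp
        have e : vb (ξ q) = i.1.2.1 := by
          rw [hqp, ← h p, hl]
          rfl
        rw [e]
        exact i.2
    have h5 : Jr (κK κ i) p = ∏ r, Jr (cK (κ i.1.1) (i.1.2.1 r) (i.1.2.2 r)) p := by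
      unfold κK
      rw [Jr_prod_left]
    have h6 : ∏ r, (Jr (cK (κ i.1.1) (i.1.2.1 r) (i.1.2.2 r)) p *
        ((if (i.1.2.2 r).1 = true then sg (sgn p (E1 r ξ)) else 1) *
        (if (i.1.2.2 r).2 = true then sg (sgn p (E2 r ξ)) else 1))) =
        (∏ r, Jr (cK (κ i.1.1) (i.1.2.1 r) (i.1.2.2 r)) p) *
        ∏ r, ((if (i.1.2.2 r).1 = true then sg (sgn p (E1 r ξ)) else 1) *
        (if (i.1.2.2 r).2 = true then sg (sgn p (E2 r ξ)) else 1)) := Finset.prod_mul_distrib
    rw [h2]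
    simp only [Gk, Option.elim]
    rw [h5, h6]
    generalize (∏ r, Jr (cK (κ i.1.1) (i.1.2.1 r) (i.1.2.2 r)) p) = a
    generalize (∏ r, ((if (i.1.2.2 r).1 = true then sg (sgn p (E1 r ξ)) else 1) *
        (if (i.1.2.2 r).2 = true then sg (sgn p (E2 r ξ)) else 1))) = b
    ring

end final

theorem expk : Pool.Agent.W262.SH.EXPK := by
  intro J _ _ κ k c z y hz hκ hκz
  classical
  rw [lhs_eqk, sum_Tup, ← Finset.sum_fiberwise univ
    (fun (l : Pr z y → Option (IK J k)) => fun p => fk (l p))]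
  refine Finset.sum_congr rfl fun ξ _ => ?_
  have h1 : (univ.filter fun l : Pr z y → Option (IK J k) => (fun p => fk (l p)) = ξ) =
      Fintype.piFinset (fun p => univ.filter (fun x : Option (IK J k) => fk x = ξ p)) := by
    ext l
    simp only [Finset.mem_filter, Finset.mem_univ, true_and, Fintype.mem_piFinset, funext_iff]
  have hk : ∀ p : Pr z y, ∀ j i, ¬ ((p : ℕ) : ℤ) ∣ κ j i := by
    intro p j i hd
    have hz : z < p := by
      have := p.2
      unfold PS at this
      exact (Finset.mem_Ioc.1 (Finset.mem_filter.1 this).1).1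
    have h3 := Nat.le_of_dvd (Int.natAbs_pos.mpr (hκ j i)) (Int.natCast_dvd.1 hd)
    have h4 := hκz j i
    omega
  rw [h1, Finset.prod_congr rfl fun p _ => (sum_Gk κ c ξ p (hk p)).symm, Finset.prod_univ_sum]
  refine Finset.sum_congr rfl fun l hl => ?_
  rw [Fintype.mem_piFinset] at hl
  exact (rhs_termk κ c ξ l fun p => (Finset.mem_filter.1 (hl p)).2).symm

end Pool.Agent.W74.SM
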