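import Pool.Agent.W762.RK2.EXP4b
import Pool.Agent.W262.SH.StmK

/-!
# Project SM: expansion of the `k`-th moment into symbols, first part
-/

set_option autoImplicit false

namespace Pool.Agent.W74.SM

open Finset Pool.Agent.W262.RK Pool.Agent.W108.RK Pool.Agent.W762.RK2 Pool.Agent.W262.SH

section signs

lemma ez_add (ε : ℝ) (hε : ε * ε = 1) (a b : ZMod 2) :
    (if a + b = 1 then ε else 1) = (if a = 1 then ε else 1) * (if b = 1 then ε else 1) := by
  have ha : a = 0 ∨ a = 1 := by revert a; decide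
  have hb : b = 0 ∨ b = 1 := by revert b; decide
  have e0 : ¬ ((0 : ZMod 2) = 1) := by decide
  have e2 : ¬ ((1 + 1 : ZMod 2) = 1) := by decide
  rcases ha with rfl | rfl <;> rcases hb with rfl | rfl
  · simp [e0]
  · simp [e0]
  · simp [e0]
  · rw [if_neg e2, if_pos rfl, hε]

lemma ez_sum (ε : ℝ) (hε : ε * ε = 1) {ι : Type} (s : Finset ι) (a : ι → ZMod 2) :
    (if ∑ i ∈ s, a i = 1 then ε else 1) = ∏ i ∈ s, (if a i = 1 then ε else 1) := by
  classical
  induction s using Finset.induction_on with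
  | empty => simp
  | insert i s hi ih => rw [Finset.sum_insert hi, Finset.prod_insert hi, ez_add ε hε, ih]

/-- the local pairing -/
def px (x v : Bool × Bool) : ZMod 2 :=
  (if x.1 && v.1 then 1 else 0) + (if x.2 && v.2 then 1 else 0)

lemma pr_eq {k : ℕ} (x v : Fin k → Bool × Bool) : pr x v = ∑ r, px (x r) (v r) := rfl

lemma sg_xor (a b : Bool) : sg (xor a b) = sg a * sg b := by
  cases a <;> cases b <;> simp [sg]

lemma ind_two (h g h0 g0 : Bool) : ind (h = h0 ∧ g = g0) =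
    ∑ x : Bool × Bool, (1 / 4 : ℝ) * (((if x.1 = true then sg h0 else 1) *
      (if x.2 = true then sg g0 else 1)) *
      ((if x.1 = true then sg h else 1) * (if x.2 = true then sg g else 1))) := by
  simp only [Fintype.sum_prod_type, Fintype.sum_bool]
  cases h <;> cases g <;> cases h0 <;> cases g0 <;> simp [ind, sg] <;> norm_num

/-- first constant -/
def C1 (κ : Fin 3 → ℤ) (p : ℕ) (v : Bool × Bool) : Bool :=
  xor (v.1 && !v.2 && sg0 p (κ 0)) (xor (!v.1 && v.2 && sg0 p (κ 0 * κ 1))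
    (v.1 && v.2 && sg0 p (κ 1)))

/-- second constant -/
def C2 (κ : Fin 3 → ℤ) (p : ℕ) (v : Bool × Bool) : Bool :=
  xor (v.1 && !v.2 && sg0 p (κ 0 * κ 2)) (xor (!v.1 && v.2 && sg0 p (-κ 0))
    (v.1 && v.2 && sg0 p (-κ 2)))

lemma LL3 (κ : Fin 3 → ℤ) (neg : Bool) (p : ℕ) (v : Bool × Bool) (h g : Bool) :
    LL 3 κ neg p v.1 v.2 h g =
      (h = xor (v.1 && neg) (C1 κ p v) ∧ g = xor (v.2 && neg) (C2 κ p v)) := rfl

lemma Jr_cK (κ : Fin 3 → ℤ) {p : ℕ} (hp : p.Prime) (hk : ∀ i, ¬ (p : ℤ) ∣ κ i)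
    (v x : Bool × Bool) : Jr (cK κ v x) p =
      (if x.1 = true then sg (C1 κ p v) else 1) * (if x.2 = true then sg (C2 κ p v) else 1) := by
  have hmul : ∀ i j, ¬ (p : ℤ) ∣ κ i * κ j := by
    intro i j hd
    rcases (Nat.prime_iff_prime_int.1 hp).dvd_or_dvd hd with h' | h'
    · exact hk i h'
    · exact hk j h'
  have hneg : ∀ i, ¬ (p : ℤ) ∣ -κ i := fun i h' => hk i ((dvd_neg).1 h')
  have e0 : Jr (κ 0) p = sg (sg0 p (κ 0)) := Jr_dvd_ne hp (hk 0)
  have e1 : Jr (κ 1) p = sg (sg0 p (κ 1)) := Jr_dvd_ne hp (hk 1)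
  have e2 : Jr (κ 0 * κ 1) p = sg (sg0 p (κ 0 * κ 1)) := Jr_dvd_ne hp (hmul 0 1)
  have e3 : Jr (κ 0 * κ 2) p = sg (sg0 p (κ 0 * κ 2)) := Jr_dvd_ne hp (hmul 0 2)
  have e4 : Jr (-κ 0) p = sg (sg0 p (-κ 0)) := Jr_dvd_ne hp (hneg 0)
  have e5 : Jr (-κ 2) p = sg (sg0 p (-κ 2)) := Jr_dvd_ne hp (hneg 2)
  have e6 : Jr 1 p = 1 := Jr_one_left p
  unfold cK
  rw [Jr_mul_left]
  obtain ⟨v1, v2⟩ := v
  obtain ⟨x1, x2⟩ := x
  congr 1
  · cases x1
    · simp [e6]
    · cases v1 <;> cases v2 <;> simp [C1, e0, e1, e2, e6, sg]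
  · cases x2
    · simp [e6]
    · cases v1 <;> cases v2 <;> simp [C2, e3, e4, e5, e6, sg]

lemma one_comp (κ : Fin 3 → ℤ) {p : ℕ} (hp : p.Prime) (hk : ∀ i, ¬ (p : ℤ) ∣ κ i)
    (neg : Bool) (v : Bool × Bool) (h g : Bool) :
    ind (LL 3 κ neg p v.1 v.2 h g) =
      ∑ x : Bool × Bool, (1 / 4 : ℝ) * ((if neg = true then (if px x v = 1 then -1 else 1) else 1) *
        (Jr (cK κ v x) p * ((if x.1 = true then sg h else 1) *
          (if x.2 = true then sg g else 1)))) := by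
  rw [LL3, ind_two]
  refine Finset.sum_congr rfl fun x _ => ?_
  have key : ((if x.1 = true then sg (xor (v.1 && neg) (C1 κ p v)) else 1) *
      (if x.2 = true then sg (xor (v.2 && neg) (C2 κ p v)) else 1)) =
      (if neg = true then (if px x v = 1 then -1 else 1) else 1) * Jr (cK κ v x) p := by
    rw [Jr_cK κ hp hk, sg_xor, sg_xor]
    generalize sg (C1 κ p v) = a
    generalize sg (C2 κ p v) = b
    obtain ⟨v1, v2⟩ := v
    obtain ⟨x1, x2⟩ := x
    have e0 : ¬ ((0 : ZMod 2) = 1) := by decide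
    have e2 : ¬ ((1 + 1 : ZMod 2) = 1) := by decide
    cases neg <;> cases v1 <;> cases v2 <;> cases x1 <;> cases x2 <;> simp [px, sg, e0, e2]
  rw [key]
  ring

lemma loc_id (k : ℕ) (κ : Fin 3 → ℤ) {p : ℕ} (hp : p.Prime) (hk : ∀ i, ¬ (p : ℤ) ∣ κ i)
    (v : Fin k → Bool × Bool) (h g : Fin k → Bool) :
    ((∏ r, ind (LL 3 κ true p (v r).1 (v r).2 (h r) (g r))) +
      ∏ r, ind (LL 3 κ false p (v r).1 (v r).2 (h r) (g r))) / 2 =
      ∑ x : Fin k → Bool × Bool, if pr x v = 0 then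
        (1 / 4 : ℝ) ^ k * ∏ r, (Jr (cK κ (v r) (x r)) p * ((if (x r).1 = true then sg (h r) else 1) *
          (if (x r).2 = true then sg (g r) else 1))) else 0 := by
  have key : ∀ neg : Bool, ∏ r, ind (LL 3 κ neg p (v r).1 (v r).2 (h r) (g r)) =
      ∑ x : Fin k → Bool × Bool, (1 / 4 : ℝ) ^ k *
        ((if neg = true then (if pr x v = 1 then -1 else 1) else 1) *
          ∏ r, (Jr (cK κ (v r) (x r)) p * ((if (x r).1 = true then sg (h r) else 1) *
          (if (x r).2 = true then sg (g r) else 1)))) := by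
    intro neg
    rw [Finset.prod_congr rfl fun r _ => one_comp κ hp hk neg (v r) (h r) (g r),
      Finset.prod_univ_sum, Fintype.piFinset_univ]
    refine Finset.sum_congr rfl fun x _ => ?_
    rw [Finset.prod_mul_distrib, Finset.prod_mul_distrib, Finset.prod_const, Finset.card_univ,
      Fintype.card_fin]
    congr 2
    cases neg
    · simp
    · simp only [if_true]
      rw [pr_eq, ez_sum (-1) (by norm_num)]
  rw [key true, key false, ← Finset.sum_add_distrib, Finset.sum_div]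
  refine Finset.sum_congr rfl fun x _ => ?_
  have hx : pr x v = 0 ∨ pr x v = 1 := by
    generalize pr x v = a
    revert a; decide
  rcases hx with hx | hx
  · rw [hx]
    simp
  · rw [hx]
    simp

end signs

end Pool.Agent.W74.SM
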